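import Pool.Agent.W890.SF.Stm

/-!
# Samuels / Feige inequality: the bound and the stability statement for two-point variables
-/

set_option autoImplicit false

namespace Pool.Agent.W82.SAM

open Finset Pool.Agent.W890.SF

theorem xlt {r : ℕ} {x : ℝ} (hr : 2 ≤ r) (hx : (20 * (r : ℝ) + 19) * x ≤ 20) :
    x ≤ 20 / (20 * (r : ℝ) + 19) ∧ 20 / (20 * (r : ℝ) + 19) < 1 := by
  have hr' : (2 : ℝ) ≤ (r : ℝ) := by exact_mod_cast hr
  have hpos : (0 : ℝ) < 20 * (r : ℝ) + 19 := by linarith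
  constructor
  · rw [le_div_iff₀ hpos]; linarith
  · rw [div_lt_one hpos]; linarith

theorem t2a (h : S_TW) : S_T2A := by
  intro r hr x hx0 hx a b q hT
  obtain ⟨w, hw0, hw1, -, hw⟩ := h r hr x hx0 hx a b q hT
  have hsum : 0 ≤ ∑ i, a i := Finset.sum_nonneg fun i _ => hT.a0 i
  obtain ⟨h1, h2⟩ := xlt hr hx
  have hp : 0 ≤ (1 - x) ^ r := pow_nonneg (by linarith) r
  rcases hw with hw | ⟨h3, h4⟩
  · have : 0 ≤ (1 - x) ^ r * (x / 4 * (1 - w)) :=
      mul_nonneg hp (mul_nonneg (by linarith) (by linarith))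
    nlinarith
  · linarith

section aux

variable {r : ℕ} (b q : Fin r → ℝ)

theorem Wt_nonneg (hq0 : ∀ i, 0 ≤ q i) (hq1 : ∀ i, q i < 1) (S ω : Finset (Fin r)) :
    0 ≤ Wt q S ω := by
  unfold Wt
  exact mul_nonneg (Finset.prod_nonneg fun i _ => hq0 i)
    (Finset.prod_nonneg fun i _ => by linarith [hq1 i])

theorem Wt_insert (hq0 : ∀ i, 0 ≤ q i) (hq1 : ∀ i, q i < 1) (i : Fin r) (ω : Finset (Fin r))
    (hi : i ∉ ω) : q i * Wt q univ ω ≤ Wt q univ (insert i ω) := by
  unfold Wt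
  rw [Finset.prod_insert hi]
  have e1 : (univ : Finset (Fin r)) \ ω = insert i (univ \ insert i ω) := by
    ext j
    simp only [mem_sdiff, mem_univ, true_and, mem_insert]
    by_cases hj : j = i
    · subst hj; simp [hi]
    · simp [hj]
  have e2 : i ∉ (univ : Finset (Fin r)) \ insert i ω := by simp
  rw [e1, Finset.prod_insert e2]
  have p1 : 0 ≤ ∏ j ∈ ω, q j := Finset.prod_nonneg fun j _ => hq0 j
  have p2 : 0 ≤ ∏ j ∈ univ \ insert i ω, (1 - q j) :=
    Finset.prod_nonneg fun j _ => by linarith [hq1 j]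
  have p3 : 0 ≤ (∏ j ∈ ω, q j) * ∏ j ∈ univ \ insert i ω, (1 - q j) := mul_nonneg p1 p2
  have h0 := hq0 i
  nlinarith [mul_nonneg h0 (mul_nonneg h0 p3)]

/-- `E (Z ; Z < c)` -/
noncomputable def PM (c : ℝ) : ℝ :=
  ∑ ω ∈ (univ : Finset (Fin r)).powerset, if ∑ i ∈ ω, b i < c then Wt q univ ω * ∑ i ∈ ω, b i else 0

theorem PM_eq (c : ℝ) : PM b q c = c * PU b q c univ - PG b q c univ := by
  unfold PM PU PG
  rw [Finset.mul_sum, ← Finset.sum_sub_distrib]
  refine Finset.sum_congr rfl fun ω _ => ?_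
  split_ifs <;> ring

theorem PU_le (hb : ∀ i, 0 < b i) (hq0 : ∀ i, 0 ≤ q i) (hq1 : ∀ i, q i < 1) (c t : ℝ) (ht : 0 < t)
    (htc : t ≤ c) : PU b q c univ ≤ PU b q t univ + PM b q c / t := by
  unfold PU PM
  rw [Finset.sum_div, ← Finset.sum_add_distrib]
  refine Finset.sum_le_sum fun ω _ => ?_
  have hW := Wt_nonneg q hq0 hq1 univ ω
  have hZ : 0 ≤ ∑ i ∈ ω, b i := Finset.sum_nonneg fun i _ => (hb i).le
  by_cases h1 : ∑ i ∈ ω, b i < c
  · by_cases h2 : ∑ i ∈ ω, b i < t
    · simp only [if_pos h1, if_pos h2]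
      have : 0 ≤ Wt q univ ω * (∑ i ∈ ω, b i) / t := div_nonneg (mul_nonneg hW hZ) ht.le
      linarith
    · rw [if_pos h1, if_neg h2, zero_add, if_pos h1, le_div_iff₀ ht]
      exact mul_le_mul_of_nonneg_left (not_lt.1 h2) hW
  · have h2 : ¬ ∑ i ∈ ω, b i < t := fun h => h1 (lt_of_lt_of_le h htc)
    rw [if_neg h1, if_neg h2, if_neg h1]
    simp

theorem PM_ge (hb : ∀ i, 0 < b i) (hq0 : ∀ i, 0 ≤ q i) (hq1 : ∀ i, q i < 1) (c t : ℝ)
    (i : Fin r) (hi : b i < c - t) (hti : t ≤ b i) :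
    q i * b i * PU b q t univ ≤ PM b q c := by
  classical
  unfold PU PM
  simp only [Finset.powerset_univ]
  have e1 : ∑ ω : Finset (Fin r), (if ∑ j ∈ ω, b j < t then Wt q univ ω else 0) =
      ∑ ω ∈ (univ : Finset (Finset (Fin r))).filter (fun ω => i ∉ ω),
        (if ∑ j ∈ ω, b j < t then Wt q univ ω else 0) := by
    rw [Finset.sum_filter]
    refine Finset.sum_congr rfl fun ω _ => ?_
    by_cases h : i ∈ ω
    · have : b i ≤ ∑ j ∈ ω, b j := Finset.single_le_sum (fun j _ => (hb j).le) h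
      rw [if_neg (by linarith), if_neg (by simpa using h)]
    · rw [if_pos h]
  rw [e1, Finset.mul_sum]
  have e2 : ∑ ω ∈ (univ : Finset (Finset (Fin r))).filter (fun ω => i ∉ ω),
      (if ∑ j ∈ insert i ω, b j < c then Wt q univ (insert i ω) * ∑ j ∈ insert i ω, b j else 0) ≤
      ∑ ω : Finset (Fin r), (if ∑ j ∈ ω, b j < c then Wt q univ ω * ∑ j ∈ ω, b j else 0) := by
    rw [← Finset.sum_image (s := (univ : Finset (Finset (Fin r))).filter (fun ω => i ∉ ω))
      (g := fun ω => insert i ω)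
      (f := fun ω => (if ∑ j ∈ ω, b j < c then Wt q univ ω * ∑ j ∈ ω, b j else 0))]
    · refine Finset.sum_le_univ_sum_of_nonneg fun ω => ?_
      split_ifs
      · exact mul_nonneg (Wt_nonneg q hq0 hq1 univ ω) (Finset.sum_nonneg fun i _ => (hb i).le)
      · exact le_refl _
    · intro ω1 h1 ω2 h2 he
      have h1' : i ∉ ω1 := by simpa using h1
      have h2' : i ∉ ω2 := by simpa using h2
      have : (insert i ω1).erase i = (insert i ω2).erase i := by
        have he' : insert i ω1 = insert i ω2 := he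
        rw [he']
      rwa [Finset.erase_insert h1', Finset.erase_insert h2'] at this
  refine le_trans (Finset.sum_le_sum fun ω hω => ?_) e2
  have hiω : i ∉ ω := by simpa using hω
  have hZ : 0 ≤ ∑ j ∈ ω, b j := Finset.sum_nonneg fun j _ => (hb j).le
  rw [Finset.sum_insert hiω]
  by_cases h : ∑ j ∈ ω, b j < t
  · rw [if_pos h, if_pos (by linarith)]
    have h1 := Wt_insert q hq0 hq1 i ω hiω
    have h2 := Wt_nonneg q hq0 hq1 univ ω
    have h3 := Wt_nonneg q hq0 hq1 univ (insert i ω)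
    have h4 := mul_le_mul_of_nonneg_right h1 (hb i).le
    have h5 := mul_nonneg h3 hZ
    nlinarith
  · rw [if_neg h, mul_zero]
    split_ifs
    · exact mul_nonneg (Wt_nonneg q hq0 hq1 univ _) (by linarith [hb i])
    · exact le_refl _

end aux

theorem t2b (h1 : S_BAS) (h2 : S_TW) (h3 : S_T2A) : S_T2B := by
  intro r hr x0 γ hx0 hγ
  have hr' : (2 : ℝ) ≤ (r : ℝ) := by exact_mod_cast hr
  have hpos : (0 : ℝ) < 20 * (r : ℝ) + 19 := by linarith
  have hlt1 : 20 / (20 * (r : ℝ) + 19) < 1 := by rw [div_lt_one hpos]; linarith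
  obtain ⟨K, hKdef⟩ : ∃ K : ℝ, K = (1 - 20 / (20 * (r : ℝ) + 19)) ^ r := ⟨_, rfl⟩
  have hK : 0 < K := by rw [hKdef]; exact pow_pos (by linarith) r
  have hK1 : K ≤ 1 := by
    rw [hKdef]
    refine pow_le_one₀ (by linarith) ?_
    have : 0 < 20 / (20 * (r : ℝ) + 19) := by positivity
    linarith
  -- the choice of `t`
  obtain ⟨t, ht0, ht1, ht2, ht3, ht4, ht5⟩ : ∃ t : ℝ, 0 < t ∧ t ≤ x0 / 4 ∧ t ≤ K / 4 ∧
      2 * t ≤ γ ∧ t ≤ 1 / 4 ∧ t * t < x0 * K / 4 := by
    refine ⟨min (min (x0 / 8) (K / 8)) (min (γ / 2) (1 / 4)), ?_, ?_, ?_, ?_, ?_, ?_⟩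
    · refine lt_min (lt_min ?_ ?_) (lt_min ?_ ?_) <;> positivity
    · have := min_le_left (min (x0 / 8) (K / 8)) (min (γ / 2) (1 / 4))
      have := min_le_left (x0 / 8) (K / 8)
      linarith
    · have := min_le_left (min (x0 / 8) (K / 8)) (min (γ / 2) (1 / 4))
      have := min_le_right (x0 / 8) (K / 8)
      linarith
    · have := min_le_right (min (x0 / 8) (K / 8)) (min (γ / 2) (1 / 4))
      have := min_le_left (γ / 2) (1 / 4)
      linarith
    · have := min_le_right (min (x0 / 8) (K / 8)) (min (γ / 2) (1 / 4))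
      have := min_le_right (γ / 2) (1 / 4)
      linarith
    · have i1 := min_le_left (min (x0 / 8) (K / 8)) (min (γ / 2) (1 / 4))
      have i2 := min_le_left (x0 / 8) (K / 8)
      have i3 := min_le_right (x0 / 8) (K / 8)
      have i0 : 0 ≤ min (min (x0 / 8) (K / 8)) (min (γ / 2) (1 / 4)) :=
        le_min (le_min (by positivity) (by positivity)) (le_min (by positivity) (by positivity))
      have i4 : min (min (x0 / 8) (K / 8)) (min (γ / 2) (1 / 4)) *
          min (min (x0 / 8) (K / 8)) (min (γ / 2) (1 / 4)) ≤ (x0 / 8) * (K / 8) :=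
        mul_le_mul (by linarith) (by linarith) i0 (by positivity)
      have : 0 < x0 * K := mul_pos hx0 hK
      linarith
  have hη : 0 < min (1 / 100 : ℝ) (t * t * x0 * K / 4) := lt_min (by norm_num) (by positivity)
  refine ⟨min (1 / 100 : ℝ) (t * t * x0 * K / 4), hη, ?_⟩
  intro x hx hxr a b q hT hP
  have hxpos : 0 < x := lt_of_lt_of_le hx0 hx
  obtain ⟨hxle, -⟩ := xlt hr hxr
  have hKx : K ≤ (1 - x) ^ r := by
    rw [hKdef]; exact pow_le_pow_left₀ (by linarith) (by linarith) r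
  obtain ⟨w, hw0, hw1, hw2, hw⟩ := h2 r hr x hxpos hxr a b q hT
  have hsum : 0 ≤ ∑ i, a i := Finset.sum_nonneg fun i _ => hT.a0 i
  have he1 := min_le_left (1 / 100 : ℝ) (t * t * x0 * K / 4)
  have he2 := min_le_right (1 / 100 : ℝ) (t * t * x0 * K / 4)
  have hwt : 1 - w ≤ t * t := by
    rcases hw with hw | ⟨h4, h5⟩
    · by_contra hcon
      push Not at hcon
      have i1 : (1 - x) ^ r * (x / 4 * (1 - w)) ≤ t * t * x0 * K / 4 := by
        have i0 : (1 - x) ^ r * (1 + x / 4 * (1 - w)) =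
          (1 - x) ^ r + (1 - x) ^ r * (x / 4 * (1 - w)) := by ring
        linarith
      have i2 : K * (x0 / 4 * (1 - w)) ≤ (1 - x) ^ r * (x / 4 * (1 - w)) := by
        refine mul_le_mul hKx (mul_le_mul_of_nonneg_right (by linarith) (by linarith)) ?_ ?_
        · exact mul_nonneg (by linarith) (by linarith)
        · linarith
      have i3 : K * (x0 / 4 * (t * t)) < K * (x0 / 4 * (1 - w)) :=
        mul_lt_mul_of_pos_left (mul_lt_mul_of_pos_left hcon (by linarith)) hK
      linarith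
    · linarith
  obtain ⟨c, hc⟩ : ∃ c : ℝ, c = 1 - ∑ i, a i := ⟨_, rfl⟩
  have htt : t * t ≤ t := mul_le_of_le_one_right ht0.le (by linarith)
  have hai : ∀ i, a i ≤ t * t := fun i => by
    have := Finset.single_le_sum (f := a) (fun j _ => hT.a0 j) (Finset.mem_univ i)
    linarith
  have hcpos : 0 < c := by rw [hc]; linarith
  have hbas := h1 (Fin r) b q c univ hcpos (fun i _ => ⟨hT.b0 i, hT.q0 i, hT.q1 i⟩)
  have hPPdef : PP a b q = PU b q c univ := by unfold PP; rw [hc]
  have hPM : PM b q c ≤ t * t := by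
    rw [PM_eq]
    rw [hPPdef, ← hc] at hw2
    rw [hw2]
    have i1 : c - w ≤ t * t := by rw [hc]; linarith
    have i2 : 0 ≤ c - w := by rw [hc]; linarith
    have i3 := hbas.1
    have i4 := hbas.2.1
    have i5 : (c - w) * PU b q c univ ≤ (c - w) * 1 := mul_le_mul_of_nonneg_left i4 i2
    linarith
  have key : ∀ i, c - t ≤ b i := by
    intro i
    by_contra hcon
    push Not at hcon
    have hbq : b i * q i = x - a i := by linarith [hT.mean i]
    have hbq' : x0 - t * t ≤ b i * q i := by linarith [hai i]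
    have hbi : b i * q i ≤ b i := mul_le_of_le_one_right (hT.b0 i).le (hT.q1 i).le
    have hti : t ≤ b i := by linarith
    have j1 := PM_ge b q hT.b0 hT.q0 hT.q1 c t i hcon hti
    have htc : t ≤ c := by linarith
    have j2 := PU_le b q hT.b0 hT.q0 hT.q1 c t ht0 htc
    have j3 : K ≤ PU b q c univ := by
      rw [← hPPdef]
      exact le_trans hKx (h3 r hr x hxpos hxr a b q hT)
    have j4 : PM b q c / t ≤ t := by
      rw [div_le_iff₀ ht0]; exact hPM
    have j5 : K - t ≤ PU b q t univ := by linarith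
    have j6 : (x0 - t * t) * (K - t) ≤ q i * b i * PU b q t univ := by
      refine mul_le_mul (by linarith) j5 (by linarith) ?_
      exact mul_nonneg (hT.q0 i) (hT.b0 i).le
    have j7 : (3 * x0 / 4) * (3 * K / 4) ≤ (x0 - t * t) * (K - t) :=
      mul_le_mul (by linarith) (by linarith) (by linarith) (by linarith)
    have j8 : 0 < x0 * K := mul_pos hx0 hK
    have j9 : (3 * x0 / 4) * (3 * K / 4) ≤ t * t := le_trans j7 (le_trans j6 (le_trans j1 hPM))
    linarith
  intro i
  refine ⟨by linarith [hai i], ?_⟩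
  have := key i
  have := hT.a0 i
  have : 1 - t * t ≤ c := by rw [hc]; linarith
  linarith

end Pool.Agent.W82.SAM
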